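import Mathlib
import Pool.Agent.H388Z.RD.Grp

namespace Pool.Agent.Results.MP_ed39a4_al.AUnboundedRetreat

open Pool.Agent.Helper376.DL (Ball ball_succ ball_mono ball_add ball_mono_succ cay_connected
  dist_le_iff mem_ball_dist)
open Pool.Agent.Helper376.Lac (Joined)
open Pool.Agent.H388Z.RD
open Relation

section defs

variable {G : Type} [Group G]

/-- The Cayley graph of `G` with respect to the finite set `S`: two distinct elements are adjacent
when they differ by right multiplication by an element of `S` or of its inverses. -/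
def cayleyGraph (S : Finset G) : SimpleGraph G :=
  SimpleGraph.fromRel (fun a b : G => a⁻¹ * b ∈ S)

/-- Word length: distance to `1` in the Cayley graph. -/
noncomputable def wordLength (S : Finset G) (g : G) : ℕ := (cayleyGraph S).dist 1 g

/-- The complement of the ball `B(n-1)`. -/
def outside (S : Finset G) (n : ℕ) : Set G := {g | n ≤ wordLength S g}

/-- One-endedness seen in the Cayley graph: for each `n`, the complement of `B(n-1)` has exactly
one infinite connected component. -/
def OneEnded (S : Finset G) : Prop :=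
  ∀ n : ℕ, ∃! C : ((cayleyGraph S).induce (outside S n)).ConnectedComponent, C.supp.Infinite

/-- `g` lies in an infinite connected component of the complement of `B(n-1)`. -/
def InInfinite (S : Finset G) (n : ℕ) (g : G) : Prop :=
  ∃ h : g ∈ outside S n,
    (((cayleyGraph S).induce (outside S n)).connectedComponentMk ⟨g, h⟩).supp.Infinite

/-- A dead end: no neighbour is one step further away from the identity. -/
def IsDeadEnd (S : Finset G) (g : G) : Prop :=
  ∀ h : G, (cayleyGraph S).Adj g h → wordLength S h ≠ wordLength S g + 1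

/-- The retreat depth of `g`: the least `d` such that `g` lies in the infinite component of the
complement of `B(|g| - d - 1)`. -/
noncomputable def retreatDepth (S : Finset G) (g : G) : ℕ :=
  sInf {d : ℕ | InInfinite S (wordLength S g - d) g}

/-- Bounded retreat depth: the retreat depths of the dead ends are bounded. -/
def BoundedRetreatDepth (S : Finset G) : Prop :=
  ∃ D : ℕ, ∀ g : G, IsDeadEnd S g → retreatDepth S g ≤ D

end defs

section general

variable {G : Type} [Group G] {S : Finset G}

open Classical in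
/-- The symmetrised set. -/
noncomputable def sy (S : Finset G) : Finset G := insert 1 (S ∪ S.image (fun s => s⁻¹))

theorem mem_sy {s : G} : s ∈ sy S ↔ s = 1 ∨ s ∈ S ∨ s⁻¹ ∈ S := by
  classical
  unfold sy
  rw [Finset.mem_insert, Finset.mem_union, Finset.mem_image]
  constructor
  · rintro (h | h | ⟨a, ha, rfl⟩)
    · exact Or.inl h
    · exact Or.inr (Or.inl h)
    · exact Or.inr (Or.inr (by simpa using ha))
  · rintro (h | h | h)
    · exact Or.inl h
    · exact Or.inr (Or.inl h)
    · exact Or.inr (Or.inr ⟨_, h, by simp⟩)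

theorem one_mem_sy : (1 : G) ∈ sy S := mem_sy.2 (Or.inl rfl)

theorem sy_inv : ∀ s ∈ sy S, s⁻¹ ∈ sy S := by
  intro s hs
  rw [mem_sy] at hs ⊢
  rcases hs with h | h | h
  · left; rw [h, inv_one]
  · right; right; rwa [inv_inv]
  · right; left; exact h

theorem sy_gen (hgen : Subgroup.closure (S : Set G) = ⊤) :
    Subgroup.closure (sy S : Set G) = ⊤ := by
  rw [eq_top_iff, ← hgen]
  apply Subgroup.closure_mono
  intro s hs
  have : s ∈ sy S := mem_sy.2 (Or.inr (Or.inl hs))
  exact this

theorem graph_eq : cayleyGraph S = Pool.Agent.Helper376.DL.Cay (sy S) := by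
  ext a b
  unfold cayleyGraph
  rw [SimpleGraph.fromRel_adj, SimpleGraph.fromRel_adj]
  constructor
  · rintro ⟨h, h1 | h1⟩
    · exact ⟨h, Or.inl (mem_sy.2 (Or.inr (Or.inl h1)))⟩
    · exact ⟨h, Or.inr (mem_sy.2 (Or.inr (Or.inl h1)))⟩
  · rintro ⟨h, h1 | h1⟩
    · rcases mem_sy.1 h1 with h2 | h2 | h2
      · exact absurd (inv_mul_eq_one.1 h2) h
      · exact ⟨h, Or.inl h2⟩
      · refine ⟨h, Or.inr ?_⟩
        have e : (a⁻¹ * b)⁻¹ = b⁻¹ * a := by group
        rwa [e] at h2
    · rcases mem_sy.1 h1 with h2 | h2 | h2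
      · exact absurd (inv_mul_eq_one.1 h2) (Ne.symm h)
      · exact ⟨h, Or.inr h2⟩
      · refine ⟨h, Or.inl ?_⟩
        have e : (b⁻¹ * a)⁻¹ = a⁻¹ * b := by group
        rwa [e] at h2

theorem adj_iff {a b : G} : (cayleyGraph S).Adj a b ↔ a ≠ b ∧ a⁻¹ * b ∈ sy S := by
  rw [graph_eq]
  exact Pool.Agent.Helper376.DL.cay_adj_iff sy_inv

theorem wl_le_iff (hgen : Subgroup.closure (S : Set G) = ⊤) {g : G} {k : ℕ} :
    wordLength S g ≤ k ↔ g ∈ Ball (sy S : Set G) k := by
  unfold wordLength
  rw [graph_eq]
  exact dist_le_iff one_mem_sy sy_inv (sy_gen hgen)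

theorem reach_of_joined {X : Set G} {g h : G} (hj : Joined (sy S : Set G) X g h) (hg : g ∈ X)
    (hh : h ∈ X) : ((cayleyGraph S).induce X).Reachable ⟨g, hg⟩ ⟨h, hh⟩ := by
  induction hj with
  | refl => exact SimpleGraph.Reachable.refl _
  | @tail y z _ hstep ih =>
    obtain ⟨hy, hz, hs⟩ := hstep
    refine (ih hy).trans ?_
    by_cases e : y = z
    · subst e
      exact SimpleGraph.Reachable.refl _
    · apply SimpleGraph.Adj.reachable
      rw [SimpleGraph.induce_adj]
      exact adj_iff.2 ⟨e, hs⟩

theorem joined_of_reach {X : Set G} {g h : X}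
    (hr : ((cayleyGraph S).induce X).Reachable g h) : Joined (sy S : Set G) X g h := by
  obtain ⟨p⟩ := hr
  induction p with
  | nil => exact ReflTransGen.refl
  | @cons u v w hadj p ih =>
    refine ReflTransGen.head ⟨u.2, v.2, ?_⟩ ih
    rw [SimpleGraph.induce_adj] at hadj
    exact (adj_iff.1 hadj).2

theorem stay_out (hgen : Subgroup.closure (S : Set G) = ⊤) {n l : ℕ} {x v : G}
    (hx : n + l ≤ wordLength S x) (hv : v ∈ Ball (sy S : Set G) l) : x * v ∈ outside S n := by
  by_contra hcon
  have h1 : ¬ n ≤ wordLength S (x * v) := hcon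
  have h2 : wordLength S (x * v) ≤ n - 1 := by omega
  have h3 : x * v * v⁻¹ ∈ Ball (sy S : Set G) (n - 1 + l) :=
    ball_add ((wl_le_iff hgen).1 h2) (ball_inv sy_inv hv)
  rw [mul_inv_cancel_right] at h3
  have h4 := (wl_le_iff hgen).2 h3
  omega

/-- Sanity check: in an infinite group the set defining the retreat depth is not empty. -/
theorem depth_nonempty [Infinite G] (hgen : Subgroup.closure (S : Set G) = ⊤) (g : G) :
    {d : ℕ | InInfinite S (wordLength S g - d) g}.Nonempty := by
  refine ⟨wordLength S g, ?_⟩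
  change InInfinite S (wordLength S g - wordLength S g) g
  rw [Nat.sub_self]
  have hall : ∀ x : G, x ∈ outside S 0 := fun x => Nat.zero_le _
  refine ⟨hall g, fun hfin => ?_⟩
  apply Set.infinite_univ (α := G)
  refine (hfin.image Subtype.val).subset ?_
  intro x _
  refine ⟨⟨x, hall x⟩, ?_, rfl⟩
  rw [SimpleGraph.ConnectedComponent.mem_supp_iff, SimpleGraph.ConnectedComponent.eq]
  have key : ∀ k, ∀ y ∈ Ball (sy S : Set G) k, Joined (sy S : Set G) (outside S 0) 1 y := by
    intro k
    induction k with
    | zero =>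
      intro y hy
      have : y = 1 := hy
      subst this
      exact ReflTransGen.refl
    | succ k ih =>
      rintro _ ⟨y, hy, s, hs, rfl⟩
      exact ReflTransGen.tail (ih y hy) ⟨hall _, hall _, by simpa using hs⟩
  have h1 := reach_of_joined (key _ x ((wl_le_iff hgen).1 le_rfl)) (hall _) (hall _)
  have h2 := reach_of_joined (key _ g ((wl_le_iff hgen).1 le_rfl)) (hall _) (hall _)
  exact h1.symm.trans h2

theorem np_of_bounded [Infinite G] (hgen : Subgroup.closure (S : Set G) = ⊤)
    (hb : BoundedRetreatDepth S) : ∃ D, NP (sy S : Set G) (wordLength S) D := by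
  obtain ⟨D, hD⟩ := hb
  refine ⟨D, fun g hg => ?_⟩
  have h1 : IsDeadEnd S g := by
    intro h hadj e
    have := hg _ (adj_iff.1 hadj).2
    rw [mul_inv_cancel_left] at this
    omega
  have h2 := hD g h1
  obtain ⟨h3, h4⟩ : InInfinite S (wordLength S g - retreatDepth S g) g :=
    Nat.sInf_mem (depth_nonempty hgen g)
  intro hfin
  apply h4
  apply Set.Finite.of_finite_image (f := Subtype.val) _ Subtype.val_injective.injOn
  refine hfin.subset ?_
  rintro _ ⟨x, hx, rfl⟩
  rw [SimpleGraph.ConnectedComponent.mem_supp_iff, SimpleGraph.ConnectedComponent.eq] at hx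
  refine (joined_of_reach hx.symm).mono ?_
  intro z hz
  have : wordLength S g - retreatDepth S g ≤ wordLength S z := hz
  change wordLength S g - D ≤ wordLength S z
  omega

end general

section limit

variable {S : Finset GG}

theorem one_ended (hgen : Subgroup.closure (S : Set GG) = ⊤) : OneEnded S := by
  intro n
  obtain ⟨l, hl⟩ := exists_scale (SG_finite gt (Lam_finite ga gb)) (V := (sy S : Set GG))
    one_mem_sy sy_inv (sy_gen hgen)
  have hl1 := hl l le_rfl
  obtain ⟨m, hm⟩ := finite_subset_box Lam_inv GG_gen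
    (ball_fin (sy S).finite_toSet (n + l))
  have hout : ∀ x, x ∉ Box (Lam ga gb) gt m → n + l ≤ wordLength S x := by
    intro x hx
    by_contra hcon
    exact hx (hm ((wl_le_iff hgen).1 (by omega)))
  have hout' : ∀ x, x ∉ Box (Lam ga gb) gt m → x ∈ outside S n := by
    intro x hx
    have := hout x hx
    change n ≤ wordLength S x
    omega
  have hconn : ∀ x y, x ∉ Box (Lam ga gb) gt m → y ∉ Box (Lam ga gb) gt m →
      Joined (sy S : Set GG) (outside S n) x y := by
    intro x y hx hy
    have h1 := box_connected eta Lam_inv eta_lam eta_gt GG_gen NW_finite Lam_al lamp_inj m x y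
      hx hy
    refine joined_refine (X := (Box (Lam ga gb) gt m)ᶜ) one_mem_sy hl1 ?_ h1
    intro z hz v hv
    exact stay_out hgen (hout z hz) hv
  have := GG_infinite
  have hinf : ((Box (Lam ga gb) gt m)ᶜ : Set GG).Infinite :=
    (box_finite (NW_finite m)).infinite_compl
  obtain ⟨x₀, hx₀⟩ := hinf.nonempty
  refine ⟨((cayleyGraph S).induce (outside S n)).connectedComponentMk ⟨x₀, hout' x₀ hx₀⟩, ?_, ?_⟩
  · intro hfin
    apply hinf
    refine (hfin.image Subtype.val).subset ?_
    intro x hx
    refine ⟨⟨x, hout' x hx⟩, ?_, rfl⟩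
    rw [SimpleGraph.ConnectedComponent.mem_supp_iff, SimpleGraph.ConnectedComponent.eq]
    exact reach_of_joined (hconn x x₀ hx hx₀) _ _
  · intro C hC
    obtain ⟨x, hx, hxB⟩ : ∃ x : outside S n, x ∈ C.supp ∧ (x : GG) ∉ Box (Lam ga gb) gt m := by
      by_contra hcon
      push Not at hcon
      apply hC
      apply Set.Finite.of_finite_image (f := Subtype.val)
      · refine (box_finite (NW_finite m)).subset ?_
        rintro _ ⟨x, hx, rfl⟩
        exact hcon x hx
      · exact Subtype.val_injective.injOn
    rw [SimpleGraph.ConnectedComponent.mem_supp_iff] at hx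
    rw [← hx, SimpleGraph.ConnectedComponent.eq]
    exact reach_of_joined (hconn x x₀ hxB hx₀) _ _

end limit

/-- There is a finitely generated infinite group, one-ended with respect to every finite
generating set, all of whose finite generating sets have unbounded retreat depth. -/
theorem result : ∃ (G : Type) (_ : Group G), Group.FG G ∧ Infinite G ∧
    (∀ S : Finset G, Subgroup.closure (S : Set G) = ⊤ → OneEnded S) ∧
    ∀ S : Finset G, Subgroup.closure (S : Set G) = ⊤ → ¬ BoundedRetreatDepth S := by
  refine ⟨GG, inferInstance, ?_, GG_infinite, fun S hS => one_ended hS, fun S hS hb => ?_⟩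
  · rw [Group.fg_iff]
    exact ⟨_, GG_gen, SG_finite gt (Lam_finite ga gb)⟩
  · have := GG_infinite
    obtain ⟨D, hD⟩ := np_of_bounded hS hb
    exact deep_pockets (sy S).finite_toSet one_mem_sy sy_inv (sy_gen hS)
      (fun g k => wl_le_iff hS) D hD

end Pool.Agent.Results.MP_ed39a4_al.AUnboundedRetreat
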